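import Pool.Agent.FS.RootH4.Geo

/-!
# An admissible set with 722 lines and at most 121 planes through each of its points
-/

namespace Pool.Agent.Results.MP_9f1016_co.PlanesAtPoint

/-- The number of lines containing at least two points of `S`. -/
noncomputable def numLines (S : Finset (EuclideanSpace ℝ (Fin 3))) : ℕ :=
  {L : AffineSubspace ℝ (EuclideanSpace ℝ (Fin 3)) | Module.finrank ℝ L.direction = 1 ∧
    ∃ p ∈ S, ∃ q ∈ S, p ≠ q ∧ p ∈ L ∧ q ∈ L}.ncard

/-- The number of planes through `x` containing at least three non-collinear points of `S`. -/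
noncomputable def planesAt (S : Finset (EuclideanSpace ℝ (Fin 3)))
    (x : EuclideanSpace ℝ (Fin 3)) : ℕ∞ :=
  {P : AffineSubspace ℝ (EuclideanSpace ℝ (Fin 3)) | Module.finrank ℝ P.direction = 2 ∧ x ∈ P ∧
    ∃ p ∈ S, ∃ q ∈ S, ∃ r ∈ S,
      ¬ Collinear ℝ ({p, q, r} : Set (EuclideanSpace ℝ (Fin 3))) ∧ p ∈ P ∧ q ∈ P ∧ r ∈ P}.encard

/-- `S` lies in no plane and in no union of two lines. -/
def Spread (S : Finset (EuclideanSpace ℝ (Fin 3))) : Prop :=
  ¬ Coplanar ℝ (S : Set (EuclideanSpace ℝ (Fin 3))) ∧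
    ¬ ∃ L M : AffineSubspace ℝ (EuclideanSpace ℝ (Fin 3)), Module.finrank ℝ L.direction = 1 ∧
      Module.finrank ℝ M.direction = 1 ∧ ∀ x ∈ S, x ∈ L ∨ x ∈ M

open Pool.Agent.FS.RootH4 in
theorem result : ∃ S : Finset (EuclideanSpace ℝ (Fin 3)), Spread S ∧ S.card = 60 ∧
    722 ≤ numLines S ∧ ∀ x ∈ S, planesAt S x ≤ 121 := by
  classical
  have mem : ∀ t, t < 60 → pt t ∈ (Finset.range 60).image pt := fun t ht =>
    Finset.mem_image_of_mem _ (Finset.mem_range.2 ht)
  have out : ∀ x ∈ (Finset.range 60).image pt, ∃ t, t < 60 ∧ pt t = x := fun x hx => by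
    obtain ⟨t, ht, e⟩ := Finset.mem_image.1 hx
    exact ⟨t, Finset.mem_range.1 ht, e⟩
  refine ⟨(Finset.range 60).image pt, ⟨fun h => ?_, ?_⟩, ?_, ?_, fun x hx => ?_⟩
  · rw [coplanar_iff_finrank_le_two] at h
    have v : ∀ t, t < 60 → pt t -ᵥ pt 3 ∈ vectorSpan ℝ
        (((Finset.range 60).image pt : Finset E3) : Set E3) := fun t ht =>
      vsub_mem_vectorSpan ℝ (Finset.mem_coe.2 (mem t ht)) (Finset.mem_coe.2 (mem 3 (by omega)))
    have p0 : pt 0 = toP ⟨2, 0, 0, 0, 0, 0, 2, 0⟩ := rfl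
    have p1 : pt 1 = toP ⟨0, 0, 2, 0, 0, 0, 4, 0⟩ := rfl
    have p2 : pt 2 = toP ⟨0, 0, 0, 0, 2, 0, 6, 0⟩ := rfl
    have p3 : pt 3 = toP ⟨0, 0, 0, 0, 0, 0, 2, 0⟩ := rfl
    have top : vectorSpan ℝ (((Finset.range 60).image pt : Finset E3) : Set E3) = ⊤ := by
      refine Submodule.eq_top_iff'.2 fun y => ?_
      have e : y = y 0 • (pt 0 -ᵥ pt 3) + (2 * y 1) • (pt 1 -ᵥ pt 3) +
          (3 * y 2) • (pt 2 -ᵥ pt 3) := by
        rw [p0, p1, p2, p3]
        ext i
        fin_cases i <;> simp [toP, ev] <;> ring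
      rw [e]
      exact add_mem (add_mem (Submodule.smul_mem _ _ (v 0 (by omega)))
        (Submodule.smul_mem _ _ (v 1 (by omega)))) (Submodule.smul_mem _ _ (v 2 (by omega)))
    rw [top, finrank_top, finrank_euclideanSpace_fin] at h
    omega
  · rintro ⟨L, M, hL, hM, h⟩
    have a := fun t ht => h _ (mem t ht)
    have b : ∀ T : AffineSubspace ℝ E3, Module.finrank ℝ T.direction = 1 →
        ((Finset.range 5).filter fun t => pt t ∈ T).card ≤ 2 := fun T hT => by
      by_contra hc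
      obtain ⟨i, hi, j, hj, t, ht, h1, h2, h3⟩ := Finset.two_lt_card.1 (not_le.1 hc)
      obtain ⟨i1, i2⟩ := Finset.mem_filter.1 hi
      obtain ⟨j1, j2⟩ := Finset.mem_filter.1 hj
      obtain ⟨t1, t2⟩ := Finset.mem_filter.1 ht
      exact five hT i j t (Finset.mem_range.1 i1) (Finset.mem_range.1 j1) (Finset.mem_range.1 t1)
        h1 h2.symm h3.symm ⟨i2, j2, t2⟩
    have c : Finset.range 5 ⊆ ((Finset.range 5).filter fun t => pt t ∈ L) ∪
        ((Finset.range 5).filter fun t => pt t ∈ M) := fun t ht => by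
      have h5 := Finset.mem_range.1 ht
      rcases a t (by omega) with h1 | h1
      · exact Finset.mem_union_left _ (Finset.mem_filter.2 ⟨ht, h1⟩)
      · exact Finset.mem_union_right _ (Finset.mem_filter.2 ⟨ht, h1⟩)
    have d := (Finset.card_le_card c).trans (Finset.card_union_le _ _)
    have d1 := b L hL
    have d2 := b M hM
    rw [Finset.card_range] at d
    omega
  · rw [Finset.card_image_of_injOn fun i hi j hj e =>
      pt_inj (Finset.mem_range.1 hi) (Finset.mem_range.1 hj) e, Finset.card_range]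
  · have h1 : (lns.map fun e => line[ℝ, pt e.1, pt e.2.1]).toFinset.card = 722 := by
      rw [List.toFinset_card_of_nodup lines_nodup, List.length_map, c_len]
    rw [← h1, ← Set.ncard_coe_finset]
    refine Set.ncard_le_ncard (fun L hL => ?_) ?_
    · obtain ⟨e, he, rfl⟩ := List.mem_map.1 (List.mem_toFinset.1 (Finset.mem_coe.1 hL))
      obtain ⟨a1, a2, a3, -⟩ := ln_spec he
      have a4 : pt e.1 ≠ pt e.2.1 := fun h => a3 (pt_inj a1 a2 h)
      exact ⟨line_rank a4, _, mem _ a1, _, mem _ a2, a4, left_mem_affineSpan_pair ℝ _ _,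
        right_mem_affineSpan_pair ℝ _ _⟩
    · generalize (Finset.range 60).image pt = S
      refine (((S ×ˢ S).image fun e => line[ℝ, e.1, e.2]).finite_toSet).subset ?_
      rintro L ⟨hL, p, hp, q, hq, hne, pL, qL⟩
      exact Finset.mem_coe.2 (Finset.mem_image.2 ⟨(p, q), Finset.mem_product.2 ⟨hp, hq⟩,
        line_eq hL hne pL qL⟩)
  · obtain ⟨a, ha, rfl⟩ := out x hx
    have h1 : (((pls.filter fun e => e.2.testBit a).map fun e => pl e.1).toFinset).card ≤ 121 := by
      refine (List.toFinset_card_le _).trans ?_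
      rw [List.length_map]
      exact of_decide_eq_true (List.all_eq_true.1 c_cnt a (List.mem_range.2 ha))
    refine (Set.encard_le_encard (t := (((pls.filter fun e => e.2.testBit a).map
      fun e => pl e.1).toFinset : Set (AffineSubspace ℝ E3))) ?_).trans ?_
    · rintro P ⟨hP, xP, p, hp, q, hq, r, hr, hc, pP, qP, rP⟩
      have key : ∀ i j, i < 60 → j < 60 → ¬ Collinear ℝ ({pt a, pt i, pt j} : Set E3) →
          pt i ∈ P → pt j ∈ P → P ∈ (((pls.filter fun e => e.2.testBit a).map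
            fun e => pl e.1).toFinset : Set (AffineSubspace ℝ E3)) := fun i j hi hj h iP jP => by
        obtain ⟨e, he, k1, k2, k3, k4⟩ := cover ha hi hj
        exact Finset.mem_coe.2 (List.mem_toFinset.2 (List.mem_map.2
          ⟨e, he, (plane_eq hP k4 h xP iP jP k1 k2 k3).symm⟩))
      obtain ⟨i, hi, rfl⟩ := out p hp
      obtain ⟨j, hj, rfl⟩ := out q hq
      obtain ⟨k, hk, rfl⟩ := out r hr
      rcases pick (pt a) hc with h | h | h
      · exact key j k hj hk h qP rP
      · exact key i j hi hj h pP qP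
      · exact key i k hi hk h pP rP
    · rw [Set.encard_coe_eq_coe_finsetCard]
      exact_mod_cast h1

end Pool.Agent.Results.MP_9f1016_co.PlanesAtPoint
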