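import Pool.Agent.Lib.MP_9f1016_co.MomentD

/-!
# The optimal constant in `l(S)^2 ≥ k |S| p(S)` for sets of at most `N` points in dimension `d`
-/

namespace Pool.Agent.Results.MP_9f1016_co.SharpKStar

variable {d : ℕ}

/-- The number of lines containing at least two points of `S`. -/
noncomputable def numLines (S : Finset (EuclideanSpace ℝ (Fin d))) : ℕ :=
  {L : AffineSubspace ℝ (EuclideanSpace ℝ (Fin d)) | Module.finrank ℝ L.direction = 1 ∧
    ∃ p ∈ S, ∃ q ∈ S, p ≠ q ∧ p ∈ L ∧ q ∈ L}.ncard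

/-- The number of planes containing at least three non-collinear points of `S`. -/
noncomputable def numPlanes (S : Finset (EuclideanSpace ℝ (Fin d))) : ℕ :=
  {P : AffineSubspace ℝ (EuclideanSpace ℝ (Fin d)) | Module.finrank ℝ P.direction = 2 ∧
    ∃ p ∈ S, ∃ q ∈ S, ∃ r ∈ S,
      ¬ Collinear ℝ ({p, q, r} : Set (EuclideanSpace ℝ (Fin d))) ∧ p ∈ P ∧ q ∈ P ∧ r ∈ P}.ncard

/-- `L` is a line. -/
def IsLine (L : AffineSubspace ℝ (EuclideanSpace ℝ (Fin d))) : Prop :=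
  Module.finrank ℝ L.direction = 1

/-- `L` and `M` are skew lines: two lines that do not lie in a common plane. -/
def Skew (L M : AffineSubspace ℝ (EuclideanSpace ℝ (Fin d))) : Prop :=
  IsLine L ∧ IsLine M ∧ ¬ Coplanar ℝ ((L : Set (EuclideanSpace ℝ (Fin d))) ∪ (M : Set _))

/-- `S` is contained in the union of two skew lines. -/
def OnTwoSkewLines (S : Finset (EuclideanSpace ℝ (Fin d))) : Prop :=
  ∃ L M : AffineSubspace ℝ (EuclideanSpace ℝ (Fin d)), Skew L M ∧ ∀ x ∈ S, x ∈ L ∨ x ∈ M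

/-- `S` is not contained in a plane, nor in the union of two skew lines. -/
def Admissible (S : Finset (EuclideanSpace ℝ (Fin d))) : Prop :=
  ¬ Coplanar ℝ (S : Set (EuclideanSpace ℝ (Fin d))) ∧ ¬ OnTwoSkewLines S

/-- `3 (N - 1) / (2 (N - 2))` for finite `N`, and `3 / 2` for `N = ∞`. -/
noncomputable def bound : ℕ∞ → ℝ
  | ⊤ => 3 / 2
  | (N : ℕ) => 3 * ((N : ℝ) - 1) / (2 * ((N : ℝ) - 2))

open Pool.Agent.Lib.MP_9f1016_co in
theorem result (d : ℕ) (hd : 3 ≤ d) (N : ℕ∞) (hN : 5 ≤ N) :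
    IsGLB {k : ℝ | ∃ S : Finset (EuclideanSpace ℝ (Fin d)), Admissible S ∧ (S.card : ℕ∞) ≤ N ∧
      k = (numLines S : ℝ) ^ 2 / ((S.card : ℝ) * (numPlanes S : ℝ))} (bound N) := by
  obtain ⟨D, rfl⟩ := Nat.exists_eq_add_of_le' hd
  have hl : ∀ S : Finset (EuclideanSpace ℝ (Fin (D + 3))),
      numLines S = ((affGeo _).lines S).card := fun S => by
    rw [numLines, ← coe_lines, Set.ncard_coe_finset]
  have hp : ∀ S : Finset (EuclideanSpace ℝ (Fin (D + 3))),
      numPlanes S = ((affGeo _).planes S).card := fun S => by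
    rw [numPlanes, ← coe_planes, Set.ncard_coe_finset]
  have low : ∀ S : Finset (EuclideanSpace ℝ (Fin (D + 3))), Admissible S → (3 : ℝ) ≤ S.card ∧
      3 / 2 + 3 / 2 / ((S.card : ℝ) - 2) ≤
        (numLines S : ℝ) ^ 2 / ((S.card : ℝ) * (numPlanes S : ℝ)) := fun S hS => by
    rw [hl, hp]
    exact Dim.ratio_low hS.1
  have up : ∀ c ∈ lowerBounds {k : ℝ | ∃ S : Finset (EuclideanSpace ℝ (Fin (D + 3))),
      Admissible S ∧ (S.card : ℕ∞) ≤ N ∧
        k = (numLines S : ℝ) ^ 2 / ((S.card : ℝ) * (numPlanes S : ℝ))}, ∀ n : ℕ, 5 ≤ n →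
      (n : ℕ∞) ≤ N → c ≤ 3 / 2 + 3 / 2 / ((n : ℝ) - 2) := fun c hc n h5 hn => by
    have h1 := hc ⟨Dim.momSet D n, ⟨Dim.momSet_not_coplanar (by omega), fun ⟨L, M, h1, h2⟩ =>
      Dim.momSet_not_subset h5 L M h1.1 h1.2.1 fun x hx => h2 x hx⟩,
      by rwa [Dim.card_momSet], rfl⟩
    rw [hl, hp] at h1
    exact h1.trans (Dim.ratio_mom (by omega))
  induction N using ENat.recTopCoe with
  | top =>
    change IsGLB _ (3 / 2 : ℝ)
    constructor
    · rintro _ ⟨S, hS, -, rfl⟩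
      obtain ⟨h1, h2⟩ := low S hS
      exact le_trans (le_add_of_nonneg_right (div_nonneg (by norm_num) (by linarith))) h2
    · intro c hc
      refine le_of_forall_pos_le_add fun ε hε => ?_
      obtain ⟨m, hm⟩ := exists_nat_ge (3 / 2 / ε)
      refine (up c hc (m + 5) (by omega) le_top).trans ?_
      have h0 : (0 : ℝ) ≤ m := Nat.cast_nonneg m
      rw [div_le_iff₀ hε] at hm
      push_cast
      rw [add_le_add_iff_left, div_le_iff₀ (by linarith)]
      nlinarith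
  | coe N =>
    have h5 : 5 ≤ N := by exact_mod_cast hN
    have h5' : (5 : ℝ) ≤ N := by exact_mod_cast h5
    have e : bound (N : ℕ∞) = 3 / 2 + 3 / 2 / ((N : ℝ) - 2) := by
      have : (N : ℝ) - 2 ≠ 0 := by linarith
      change 3 * ((N : ℝ) - 1) / (2 * ((N : ℝ) - 2)) = _
      field_simp
      ring
    rw [e]
    refine ⟨?_, fun c hc => up c hc N h5 le_rfl⟩
    rintro _ ⟨S, hS, hc, rfl⟩
    obtain ⟨h1, h2⟩ := low S hS
    have h3 : (S.card : ℝ) ≤ N := by exact_mod_cast hc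
    refine le_trans ?_ h2
    gcongr
    linarith

end Pool.Agent.Results.MP_9f1016_co.SharpKStar
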